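import Pool.Agent.H413.G.R_seed8.H494R3.NK.Stmts

set_option autoImplicit false

namespace Pool.Agent.H499R3.NK

open Pool.Agent.H494R3.NK

universe u

section gen
variable {R : Type u} [NonUnitalRing R]

theorem diag_idem {r : R} (hr : r * r = r) (m : ℕ) :
    (Matrix.diagonal (fun _ => r) : Matrix (Fin m) (Fin m) R) * Matrix.diagonal (fun _ => r) =
      Matrix.diagonal (fun _ => r) := by
  rw [Matrix.diagonal_mul_diagonal]
  simp only [hr]

theorem blk_diag (r : R) (m : ℕ) :
    blk (Matrix.diagonal (fun _ => r) : Matrix (Fin m) (Fin m) R) (s1 r) =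
      (Matrix.diagonal (fun _ => r) : Matrix (Fin (m + 1)) (Fin (m + 1)) R) := by
  ext i j
  obtain ⟨a, rfl⟩ := finSumFinEquiv.surjective i
  obtain ⟨b, rfl⟩ := finSumFinEquiv.surjective j
  unfold blk
  rw [Matrix.submatrix_apply, Equiv.symm_apply_apply, Equiv.symm_apply_apply,
    Matrix.diagonal_apply]
  simp only [EmbeddingLike.apply_eq_iff_eq]
  rcases a with a | a <;> rcases b with b | b
  · rw [Matrix.fromBlocks_apply₁₁, Matrix.diagonal_apply]
    simp only [Sum.inl.injEq]
  · rw [Matrix.fromBlocks_apply₁₂]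
    simp
  · rw [Matrix.fromBlocks_apply₂₁]
    simp
  · rw [Matrix.fromBlocks_apply₂₂]
    have : a = b := Subsingleton.elim _ _
    simp [this, s1]

theorem cm_diag {r : R} (hr : r * r = r) (m : ℕ) : cm (diag_idem hr m) = m • cl hr := by
  induction m with
  | zero =>
    rw [zero_nsmul, VV.zero_mk]
    apply VV.mk_eq.2
    have : (Matrix.diagonal (fun _ => r) : Matrix (Fin 0) (Fin 0) R) = 0 := by
      ext i; exact i.elim0
    show Eqv (Matrix.diagonal (fun _ => r) : Matrix (Fin 0) (Fin 0) R) (0 : Matrix (Fin 0) (Fin 0) R)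
    rw [this]
    exact Eqv.zero
  | succ m ih =>
    rw [succ_nsmul, ← ih]
    unfold cm cl
    rw [VV.add_mk]
    apply VV.mk_eq.2
    show Eqv (Matrix.diagonal (fun _ => r) : Matrix (Fin (m + 1)) (Fin (m + 1)) R)
      (blk (Matrix.diagonal (fun _ => r) : Matrix (Fin m) (Fin m) R) (s1 r))
    rw [blk_diag]
    exact Eqv.refl (diag_idem hr (m + 1))

end gen

open PowerSeries

variable {n : ℕ}

/-- the operator of a matrix on the column space -/
noncomputable def op (e : Matrix (Fin n) (Fin n) R0) :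
    (Fin n → PowerSeries ℚ) →ₗ[ℚ] (Fin n → PowerSeries ℚ) :=
  LinearMap.pi fun i => ∑ j, (e i j).1 ∘ₗ LinearMap.proj j

theorem op_apply (e : Matrix (Fin n) (Fin n) R0) (v : Fin n → PowerSeries ℚ) (i : Fin n) :
    op e v i = ∑ j, (e i j).1 (v j) := by
  simp [op, LinearMap.sum_apply]

theorem op_single (e : Matrix (Fin n) (Fin n) R0) (j : Fin n) (g : PowerSeries ℚ) (i : Fin n) :
    op e (Pi.single j g) i = (e i j).1 g := by
  rw [op_apply, Finset.sum_eq_single j]
  · rw [Pi.single_eq_same]
  · intro b _ hb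
    rw [Pi.single_eq_of_ne hb, map_zero]
  · intro h; exact absurd (Finset.mem_univ _) h

theorem coe_sum {ι : Type} (s : Finset ι) (f : ι → R0) (g : PowerSeries ℚ) :
    (∑ i ∈ s, f i).1 g = ∑ i ∈ s, (f i).1 g := by
  have h1 : (∑ i ∈ s, f i).1 = ∑ i ∈ s, (f i).1 := map_sum R0.subtype f s
  rw [h1, LinearMap.sum_apply]

theorem op_idem {e : Matrix (Fin n) (Fin n) R0} (he : e * e = e) (v : Fin n → PowerSeries ℚ) :
    op e (op e v) = op e v := by
  ext1 i
  rw [op_apply, op_apply]
  have h1 : ∀ j, (e i j).1 (op e v j) = ∑ k, (e i j * e j k).1 (v k) := by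
    intro j
    rw [op_apply, map_sum]
    rfl
  simp only [h1]
  rw [Finset.sum_comm]
  refine Finset.sum_congr rfl fun k _ => ?_
  rw [← coe_sum]
  have h2 : ∑ j, e i j * e j k = e i k := by
    rw [← Matrix.mul_apply, he]
  rw [h2]

theorem exists_N {e : Matrix (Fin n) (Fin n) R0} (hI : ∀ i j, I0 (e i j)) :
    ∃ N : ℕ, ∀ i j, ∀ h : PowerSeries ℚ, (e i j).1 (h * X ^ N) = 0 := by
  choose M hM using hI
  refine ⟨∑ i, ∑ j, M i j, fun i j h => ?_⟩
  have h1 : M i j ≤ ∑ i, ∑ j, M i j :=
    (Finset.single_le_sum (f := fun j => M i j) (fun _ _ => Nat.zero_le _) (Finset.mem_univ j)).trans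
      (Finset.single_le_sum (f := fun i => ∑ j, M i j) (fun _ _ => Nat.zero_le _)
        (Finset.mem_univ i))
  obtain ⟨d, hd⟩ := Nat.exists_eq_add_of_le h1
  rw [hd, add_comm (M i j) d, pow_add, ← mul_assoc]
  exact hM i j _

/-- the polynomial part -/
noncomputable def emb (n N : ℕ) : (Fin n → Fin N → ℚ) →ₗ[ℚ] (Fin n → PowerSeries ℚ) :=
  LinearMap.pi fun i => ∑ k : Fin N, (LinearMap.toSpanSingleton ℚ (PowerSeries ℚ) (X ^ k.1)) ∘ₗ
    (LinearMap.proj k ∘ₗ LinearMap.proj i)

theorem emb_apply (n N : ℕ) (c : Fin n → Fin N → ℚ) (i : Fin n) :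
    emb n N c i = ∑ k : Fin N, c i k • (X : PowerSeries ℚ) ^ k.1 := by
  simp [emb, LinearMap.sum_apply, LinearMap.toSpanSingleton_apply]

theorem fin_range {e : Matrix (Fin n) (Fin n) R0} (hI : ∀ i j, I0 (e i j)) :
    FiniteDimensional ℚ (LinearMap.range (op e)) := by
  obtain ⟨N, hN⟩ := exists_N hI
  have hle : LinearMap.range (op e) ≤ LinearMap.range (op e ∘ₗ emb n N) := by
    rintro _ ⟨v, rfl⟩
    refine ⟨fun i k => coeff k.1 (v i), ?_⟩
    rw [LinearMap.comp_apply]
    ext1 i
    rw [op_apply, op_apply]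
    refine Finset.sum_congr rfl fun j _ => ?_
    have hdvd : (X : PowerSeries ℚ) ^ N ∣ v j - emb n N (fun i k => coeff k.1 (v i)) j := by
      rw [X_pow_dvd_iff]
      intro m hm
      rw [map_sub, emb_apply, map_sum, Finset.sum_eq_single (⟨m, hm⟩ : Fin N)]
      · simp [coeff_X_pow]
      · intro b _ hb
        have : m ≠ b.1 := fun h => hb (Fin.ext h.symm)
        simp [coeff_X_pow, this]
      · intro h; exact absurd (Finset.mem_univ _) h
    obtain ⟨w, hw⟩ := hdvd
    have h2 := hN i j w
    rw [mul_comm, ← hw, map_sub, sub_eq_zero] at h2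
    exact h2.symm
  exact Submodule.finiteDimensional_of_le hle

theorem taskFin : TaskFin := by
  intro n e he hI
  have : FiniteDimensional ℚ (LinearMap.range (op e)) := fin_range hI
  obtain ⟨N, hN⟩ := exists_N hI
  let b := Module.finBasis ℚ (LinearMap.range (op e))
  set m := Module.finrank ℚ (LinearMap.range (op e)) with hm
  -- coordinates
  let φ : (Fin n → PowerSeries ℚ) →ₗ[ℚ] (Fin m → ℚ) :=
    (b.equivFun : _ →ₗ[ℚ] (Fin m → ℚ)) ∘ₗ (op e).rangeRestrict
  have hφψ : ∀ v, ∑ k, φ v k • (b k : Fin n → PowerSeries ℚ) = op e v := by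
    intro v
    have h1 := b.sum_equivFun ((op e).rangeRestrict v)
    calc ∑ k, φ v k • (b k : Fin n → PowerSeries ℚ)
        = ((∑ k, b.equivFun ((op e).rangeRestrict v) k • b k : LinearMap.range (op e)) :
            Fin n → PowerSeries ℚ) := by
          rw [Submodule.coe_sum]
          rfl
      _ = op e v := by
          rw [h1]
          rfl
  have hφb : ∀ k l, φ (b l : Fin n → PowerSeries ℚ) k = if k = l then 1 else 0 := by
    intro k l
    have h1 : (op e).rangeRestrict (b l : Fin n → PowerSeries ℚ) = b l := by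
      apply Subtype.ext
      obtain ⟨w, hw⟩ := (b l).2
      show op e (b l : Fin n → PowerSeries ℚ) = (b l : Fin n → PowerSeries ℚ)
      rw [← hw, op_idem he]
    show b.equivFun ((op e).rangeRestrict (b l : Fin n → PowerSeries ℚ)) k = _
    rw [h1]
    simp [eq_comm]
  let Xm : Matrix (Fin n) (Fin m) R0 := fun i k =>
    ⟨{ toFun := fun g => (constantCoeff g : ℚ) • (b k : Fin n → PowerSeries ℚ) i
       map_add' := fun g h => by rw [map_add, add_smul]
       map_smul' := fun c g => by
        rw [RingHom.id_apply, smul_smul]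
        congr 1 },
      1, fun h => by
        show (constantCoeff (h * X ^ 1) : ℚ) • (b k : Fin n → PowerSeries ℚ) i =
          h * ((constantCoeff (X ^ 1 : PowerSeries ℚ) : ℚ) • (b k : Fin n → PowerSeries ℚ) i)
        simp⟩
  have hker : ∀ (j : Fin n) (h : PowerSeries ℚ), φ (Pi.single j (h * X ^ N)) = 0 := by
    intro j h
    have h1 : (op e).rangeRestrict (Pi.single j (h * X ^ N)) = 0 := by
      apply Subtype.ext
      show op e (Pi.single j (h * X ^ N)) = 0
      ext1 i
      rw [op_single, hN]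
      rfl
    show b.equivFun ((op e).rangeRestrict (Pi.single j (h * X ^ N))) = 0
    rw [h1, map_zero]
  let Ym : Matrix (Fin m) (Fin n) R0 := fun k j =>
    ⟨{ toFun := fun g => C (φ (Pi.single j g) k)
       map_add' := fun g h => by rw [Pi.single_add, map_add, Pi.add_apply, map_add]
       map_smul' := fun c g => by
        rw [Pi.single_smul, map_smul, Pi.smul_apply, RingHom.id_apply, smul_eq_C_mul, smul_eq_mul,
          map_mul] },
      N, fun h => by
        show C (φ (Pi.single j (h * X ^ N)) k) = h * C (φ (Pi.single j (X ^ N)) k)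
        have h2 := hker j 1
        rw [one_mul] at h2
        rw [hker, h2]
        simp⟩
  have hXY : Xm * Ym = e := by
    ext1 i j
    apply Subtype.ext
    apply LinearMap.ext
    intro g
    rw [Matrix.mul_apply, coe_sum]
    have h1 := congrFun (hφψ (Pi.single j g)) i
    rw [op_single, Finset.sum_apply] at h1
    rw [← h1]
    refine Finset.sum_congr rfl fun k _ => ?_
    show (constantCoeff (C (φ (Pi.single j g) k)) : ℚ) • (b k : Fin n → PowerSeries ℚ) i = _
    rw [constantCoeff_C]
    rfl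
  have hYX : Ym * Xm = Matrix.diagonal (fun _ => r0) := by
    ext1 k l
    apply Subtype.ext
    apply LinearMap.ext
    intro g
    rw [Matrix.mul_apply, coe_sum]
    have h1 : ∀ j, (Ym k j * Xm j l).1 g =
        C (φ (Pi.single j ((constantCoeff g : ℚ) • (b l : Fin n → PowerSeries ℚ) j)) k) :=
      fun j => rfl
    simp only [h1]
    rw [← map_sum, ← Finset.sum_apply, ← map_sum]
    have h2 : ∑ j, Pi.single j ((constantCoeff g : ℚ) • (b l : Fin n → PowerSeries ℚ) j) =
        (constantCoeff g : ℚ) • (b l : Fin n → PowerSeries ℚ) := by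
      rw [Finset.univ_sum_single (fun j => (constantCoeff g : ℚ) • (b l : Fin n → PowerSeries ℚ) j)]
      rfl
    rw [h2, map_smul, Pi.smul_apply, hφb, Matrix.diagonal_apply]
    split_ifs with hkl
    · rw [smul_eq_mul, mul_one]
      rfl
    · rw [smul_zero, map_zero]
      rfl
  refine ⟨m, ?_⟩
  rw [← cm_diag r0_idem m]
  apply VV.mk_eq.2
  exact ⟨Xm, Ym, hXY, hYX⟩

end Pool.Agent.H499R3.NK
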